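import Pool.Agent.Helper49.RU.St

/-!
Project RU, module CHP: the continuum hypothesis implies that the pseudo-intersection number is
the continuum.
-/

set_option autoImplicit false

namespace Pool.Agent.Helper14.RU

open Pool.Agent.Helper49.RU
open MeasureTheory Filter Topology Complex
open scoped ENNReal Cardinal ComplexConjugate

theorem hCHP : StCHP := by
  intro hCH F hF hfin
  have hc : F.Countable := by
    rw [← Cardinal.le_aleph0_iff_set_countable, ← Order.lt_succ_iff, Cardinal.succ_aleph0, hCH]
    exact hF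
  rcases F.eq_empty_or_nonempty with h0 | h0
  · subst h0
    exact ⟨Set.univ, Set.infinite_univ, fun A hA => absurd hA (Set.notMem_empty A)⟩
  obtain ⟨A, hA⟩ := hc.exists_eq_range h0
  have hfreq : ∀ n : ℕ, ∃ᶠ k in atTop, ∀ m ≤ n, k ∈ A m := by
    intro n
    rw [Nat.frequently_atTop_iff_infinite]
    classical
    have h1 := hfin ((Finset.range (n + 1)).image A) (by
      intro B hB
      rw [Finset.coe_image] at hB
      obtain ⟨m, -, rfl⟩ := hB
      rw [hA]
      exact ⟨m, rfl⟩)
    refine h1.mono ?_
    intro k hk m hm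
    exact hk (A m) (Finset.mem_image.2 ⟨m, Finset.mem_range.2 (by omega), rfl⟩)
  obtain ⟨φ, hφ, hP⟩ := extraction_forall_of_frequently hfreq
  refine ⟨Set.range φ, Set.infinite_range_of_injective hφ.injective, ?_⟩
  intro B hB
  rw [hA] at hB
  obtain ⟨m, rfl⟩ := hB
  refine ((Finset.range m).image φ).finite_toSet.subset ?_
  rintro x ⟨⟨n, rfl⟩, hx⟩
  rw [Finset.coe_image]
  refine ⟨n, ?_, rfl⟩
  rw [Finset.mem_coe, Finset.mem_range]
  by_contra hn
  exact hx (hP n m (by omega))

end Pool.Agent.Helper14.RU
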